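import Mathlib
import Pool.Agent.Helper940.SelfSim
import Pool.Agent.Helper940.SelfSimBasic
import Pool.Agent.Helper940.MixedCore

set_option autoImplicit false

namespace Pool.Agent.Results.MP_e8676d_al.Degrees

open Filter Topology Pool.Agent.Helper940.SelfSim

/-- The set of all real numbers `α` for which there are `d ≥ 2`, a finitely generated self-similar
group `L` acting on the words over a `d`-letter alphabet `X`, a finite generating set `S` of `L` and
a point `ξ` of the boundary with infinite `L`-orbit whose Schreier graph has polynomial growth of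
degree `α`: `log |B(n)| / log n` tends to `α`. -/
def degreeSet : Set ℝ :=
  {α | ∃ (d : ℕ) (X : Type) (L : Subgroup (Equiv.Perm (List X))) (S : Set (Equiv.Perm (List X)))
      (ξ : ℕ → X), 2 ≤ d ∧ Nat.card X = d ∧ SelfSimilar L ∧ S.Finite ∧ Subgroup.closure S = L ∧
      {η : ℕ → X | ∃ g ∈ L, Maps g ξ η}.Infinite ∧
      Tendsto (fun n : ℕ => Real.log (growth S ξ n) / Real.log n) atTop (𝓝 α)}

theorem result : degreeSet = Set.Ici 1 := by
  apply Set.Subset.antisymm
  · rintro α ⟨d, X, L, S, ξ, -, -, hL, hS, hSL, hinf, hlim⟩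
    subst hSL
    refine ge_of_tendsto hlim ?_
    filter_upwards [eventually_ge_atTop 2] with n hn
    have hg := growth_ge_of_infinite hS hL ξ hinf n
    have hn' : (2 : ℝ) ≤ n := by exact_mod_cast hn
    have hlog : 0 < Real.log n := Real.log_pos (by linarith)
    rw [le_div_iff₀ hlog, one_mul]
    have hg' : ((n + 1 : ℕ) : ℝ) ≤ growth S ξ n := by exact_mod_cast hg
    push_cast at hg'
    exact Real.log_le_log (by linarith) (by linarith)
  · intro α hα
    obtain ⟨k, ξ, h⟩ := Pool.Agent.Helper940.MixedTree.core α hα
    refine ⟨k + 4, Pool.Agent.Helper940.MixedTree.Al k, Pool.Agent.Helper940.MixedTree.G k,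
      Pool.Agent.Helper940.MixedTree.S k, ξ, by omega, ?_,
      Pool.Agent.Helper940.MixedTree.selfSimilar_G, Pool.Agent.Helper940.MixedTree.S_finite, rfl,
      Pool.Agent.Helper940.MixedTree.orbit_infinite ξ, h⟩
    rw [Nat.card_eq_fintype_card]
    simp
    omega

end Pool.Agent.Results.MP_e8676d_al.Degrees
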